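import Mathlib
import Pool.Agent.X142.Tower

/-!
A planar discrete point process on which the random walk is almost surely transient.
-/

open MeasureTheory ProbabilityTheory Finset
open scoped ENNReal Real

namespace Pool.Agent.Results.MP_4a7829_pr.TransientPlanar

open X142.PP X142.Tower X142

section prob

variable (h : ℤ → ℕ)

/-- The probability that the model chain started at `s` is at the origin at time `n`. -/
noncomputable def p : ℕ → ℤ × ℤ → ℝ
  | 0, s => if s = (0, 0) then 1 else 0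
  | n + 1, s => (p n (stepM h s 0) + p n (stepM h s 1) + p n (stepM h s 2) + p n (stepM h s 3)) / 4

lemma p_nonneg (n : ℕ) (s : ℤ × ℤ) : 0 ≤ p h n s := by
  induction n generalizing s with
  | zero => simp only [p]; split_ifs <;> norm_num
  | succ n ih =>
    simp only [p]
    have := ih (stepM h s 0)
    have := ih (stepM h s 1)
    have := ih (stepM h s 2)
    have := ih (stepM h s 3)
    positivity

lemma pw_eq (n : ℕ) (s : ℤ × ℤ) :
    Chain.pw (Noise.P (stepM h) (PMF.uniformOfFintype (Fin 4))) n s (0, 0) =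
      ENNReal.ofReal (p h n s) := by
  classical
  induction n generalizing s with
  | zero =>
    simp only [Chain.pw, p]
    split_ifs <;> simp
  | succ n ih =>
    simp only [Chain.pw]
    rw [Noise.tsum_P, tsum_fintype, Fin.sum_univ_four]
    simp only [ih, PMF.uniformOfFintype_apply, Fintype.card_fin, p]
    rw [← mul_add, ← mul_add, ← mul_add]
    rw [← ENNReal.ofReal_add (p_nonneg _ _ _) (p_nonneg _ _ _),
      ← ENNReal.ofReal_add (add_nonneg (p_nonneg _ _ _) (p_nonneg _ _ _)) (p_nonneg _ _ _),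
      ← ENNReal.ofReal_add (add_nonneg (add_nonneg (p_nonneg _ _ _) (p_nonneg _ _ _))
        (p_nonneg _ _ _)) (p_nonneg _ _ _)]
    rw [div_eq_inv_mul, ENNReal.ofReal_mul (by norm_num)]
    congr 1
    rw [ENNReal.ofReal_inv_of_pos (by norm_num)]
    simp

/-- The Fourier transform of the probabilities in the second coordinate. -/
noncomputable def u (θ : ℝ) : ℕ → ℤ → ℝ
  | 0, i => if i = 0 then 1 else 0
  | n + 1, i => (Real.cos (θ * h i) * u θ n (i + 1) + Real.cos (θ * h (i - 1)) * u θ n (i - 1)) / 2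

lemma continuous_u (n : ℕ) (i : ℤ) : Continuous (fun θ => u h θ n i) := by
  induction n generalizing i with
  | zero => simp only [u]; exact continuous_const
  | succ n ih =>
    simp only [u]
    have h1 := ih (i + 1)
    have h2 := ih (i - 1)
    fun_prop

lemma integral_cos_int (D : ℤ) : ∫ θ in (0 : ℝ)..π, Real.cos (θ * D) = if D = 0 then π else 0 := by
  by_cases hD : D = 0
  · subst hD
    simp
  · rw [if_neg hD]
    have hD' : (D : ℝ) ≠ 0 := by exact_mod_cast hD
    rw [intervalIntegral.integral_comp_mul_right (fun x => Real.cos x) hD']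
    rw [integral_cos]
    simp only [zero_mul, Real.sin_zero, sub_zero]
    rw [mul_comm π, Real.sin_int_mul_pi]
    simp

lemma p_eq (n : ℕ) (i D : ℤ) :
    p h n (i, D) = π⁻¹ * ∫ θ in (0 : ℝ)..π, Real.cos (θ * D) * u h θ n i := by
  have hpi := Real.pi_pos
  induction n generalizing i D with
  | zero =>
    simp only [p, u]
    by_cases hi : i = 0
    · subst hi
      simp only [if_true, mul_one]
      rw [integral_cos_int]
      by_cases hD : D = 0
      · subst hD
        simp [hpi.ne']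
      · rw [if_neg hD, if_neg (by simpa using hD)]
        simp
    · rw [if_neg hi, if_neg (by simp [hi])]
      simp
  | succ n ih =>
    have hc : ∀ (i D : ℤ), IntervalIntegrable (fun θ => Real.cos (θ * D) * u h θ n i) volume 0 π := by
      intro i D
      apply Continuous.intervalIntegrable
      have := continuous_u h n i
      fun_prop
    simp only [p, stepM, ih]
    rw [← mul_add, ← mul_add, ← mul_add, mul_div_assoc]
    congr 1
    rw [← intervalIntegral.integral_add (hc _ _) (hc _ _),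
      ← intervalIntegral.integral_add ((hc _ _).add (hc _ _)) (hc _ _),
      ← intervalIntegral.integral_add (((hc _ _).add (hc _ _)).add (hc _ _)) (hc _ _),
      ← intervalIntegral.integral_div]
    congr 1
    ext θ
    simp only [u]
    push_cast
    have e1 := Real.cos_add (θ * D) (θ * h i)
    have e2 := Real.cos_sub (θ * D) (θ * h i)
    have e3 := Real.cos_add (θ * D) (θ * h (i - 1))
    have e4 := Real.cos_sub (θ * D) (θ * h (i - 1))
    rw [show θ * ((D : ℝ) + (h i : ℝ)) = θ * D + θ * h i by ring,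
      show θ * ((D : ℝ) - (h i : ℝ)) = θ * D - θ * h i by ring,
      show θ * ((D : ℝ) + (h (i - 1) : ℝ)) = θ * D + θ * h (i - 1) by ring,
      show θ * ((D : ℝ) - (h (i - 1) : ℝ)) = θ * D - θ * h (i - 1) by ring, e1, e2, e3, e4]
    ring

/-- Comparison with a superharmonic function. -/
lemma sum_abs_u_le {θ : ℝ} {H : ℤ → ℝ} (h0 : ∀ i, 0 ≤ H i)
    (hH : ∀ i, (if i = 0 then 1 else 0) + (|Real.cos (θ * h i)| * H (i + 1) +
      |Real.cos (θ * h (i - 1))| * H (i - 1)) / 2 ≤ H i) (N : ℕ) (i : ℤ) :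
    ∑ n ∈ range N, |u h θ n i| ≤ H i := by
  induction N generalizing i with
  | zero => simpa using h0 i
  | succ N ih =>
    rw [sum_range_succ']
    refine le_trans ?_ (hH i)
    have e0 : |u h θ 0 i| = if i = 0 then 1 else 0 := by
      simp only [u]; split_ifs <;> simp
    rw [e0, add_comm]
    apply add_le_add le_rfl
    calc ∑ n ∈ range N, |u h θ (n + 1) i| ≤ ∑ n ∈ range N,
          (|Real.cos (θ * h i)| * |u h θ n (i + 1)| +
            |Real.cos (θ * h (i - 1))| * |u h θ n (i - 1)|) / 2 := by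
          apply sum_le_sum
          intro n _
          simp only [u]
          rw [abs_div, abs_two]
          apply div_le_div_of_nonneg_right _ (by norm_num)
          refine (abs_add_le _ _).trans ?_
          rw [abs_mul, abs_mul]
      _ = (|Real.cos (θ * h i)| * ∑ n ∈ range N, |u h θ n (i + 1)| +
            |Real.cos (θ * h (i - 1))| * ∑ n ∈ range N, |u h θ n (i - 1)|) / 2 := by
          rw [← sum_div, sum_add_distrib, mul_sum, mul_sum]
      _ ≤ _ := by
          apply div_le_div_of_nonneg_right _ (by norm_num)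
          exact add_le_add (mul_le_mul_of_nonneg_left (ih _) (abs_nonneg _))
            (mul_le_mul_of_nonneg_left (ih _) (abs_nonneg _))

/-- The explicit superharmonic function. -/
noncomputable def Hf (q M K : ℝ) (a b : ℤ) (i : ℤ) : ℝ :=
  if b < i then q * (M + K - b) else if i < -a then q * (M + K - a) else M + K - |(i : ℝ)|

lemma Hf_super {θ q M K : ℝ} {a b : ℤ} (ha : 1 ≤ a) (hb : 1 ≤ b) (haM : (a : ℝ) ≤ M)
    (hbM : (b : ℝ) ≤ M) (hq0 : 0 ≤ q) (hK : 1 ≤ (1 - q ^ 2) * K) (hK0 : 0 ≤ K)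
    (hqb : |Real.cos (θ * h b)| = q) (hqa : |Real.cos (θ * h (-a - 1))| = q) (hq1 : q ≤ 1) :
    (∀ i, 0 ≤ Hf q M K a b i) ∧
    ∀ i, (if i = 0 then 1 else 0) + (|Real.cos (θ * h i)| * Hf q M K a b (i + 1) +
      |Real.cos (θ * h (i - 1))| * Hf q M K a b (i - 1)) / 2 ≤ Hf q M K a b i := by
  have hB : K ≤ M + K - b := by linarith
  have hA : K ≤ M + K - a := by linarith
  have hq2 : 0 ≤ 1 - q ^ 2 := by nlinarith
  have hB1 : 1 ≤ (1 - q ^ 2) * (M + K - b) := hK.trans (mul_le_mul_of_nonneg_left hB hq2)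
  have hA1 : 1 ≤ (1 - q ^ 2) * (M + K - a) := hK.trans (mul_le_mul_of_nonneg_left hA hq2)
  have hcR : 0 ≤ q * (M + K - b) := mul_nonneg hq0 (hK0.trans hB)
  have hcL : 0 ≤ q * (M + K - a) := mul_nonneg hq0 (hK0.trans hA)
  have hR : ∀ i : ℤ, b < i → Hf q M K a b i = q * (M + K - b) := by
    intro i hi; unfold Hf; rw [if_pos hi]
  have hL : ∀ i : ℤ, i < -a → Hf q M K a b i = q * (M + K - a) := by
    intro i hi; unfold Hf; rw [if_neg (by omega), if_pos hi]
  have hP : ∀ i : ℤ, 0 ≤ i → i ≤ b → Hf q M K a b i = M + K - i := by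
    intro i h0 hi; unfold Hf
    rw [if_neg (by omega), if_neg (by omega), abs_of_nonneg (by exact_mod_cast h0)]
  have hN : ∀ i : ℤ, i ≤ 0 → -a ≤ i → Hf q M K a b i = M + K + i := by
    intro i h0 hi; unfold Hf
    rw [if_neg (by omega), if_neg (by omega), abs_of_nonpos (by exact_mod_cast h0)]
    ring
  have hnn : ∀ i, 0 ≤ Hf q M K a b i := by
    intro i
    rcases lt_or_ge b i with h1 | h1
    · rw [hR i h1]; exact hcR
    · rcases lt_or_ge i (-a) with h2 | h2
      · rw [hL i h2]; exact hcL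
      · rcases le_total 0 i with h3 | h3
        · rw [hP i h3 h1]
          have : (i : ℝ) ≤ b := by exact_mod_cast h1
          linarith
        · rw [hN i h3 h2]
          have : (-a : ℝ) ≤ i := by exact_mod_cast h2
          linarith
  have hle : ∀ (x y : ℝ), |Real.cos x| * y ≤ |y| := by
    intro x y
    calc |Real.cos x| * y ≤ |Real.cos x| * |y| :=
          mul_le_mul_of_nonneg_left (le_abs_self y) (abs_nonneg _)
      _ ≤ 1 * |y| := mul_le_mul_of_nonneg_right (Real.abs_cos_le_one x) (abs_nonneg _)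
      _ = |y| := one_mul _
  have hle' : ∀ (x : ℝ) (i : ℤ), |Real.cos x| * Hf q M K a b i ≤ Hf q M K a b i := by
    intro x i
    have := hle x (Hf q M K a b i)
    rwa [abs_of_nonneg (hnn i)] at this
  refine ⟨hnn, fun i => ?_⟩
  have g1 := hle' (θ * h i) (i + 1)
  have g2 := hle' (θ * h (i - 1)) (i - 1)
  rcases lt_or_ge b i with h1 | h1
  · rw [if_neg (by omega), zero_add, hR i h1]
    rw [hR (i + 1) (by omega)] at g1 ⊢
    rcases lt_or_ge b (i - 1) with h2 | h2
    · rw [hR (i - 1) h2] at g2 ⊢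
      linarith
    · have e : i - 1 = b := by omega
      rw [e, hqb, hP b (by omega) le_rfl]
      linarith
  · rcases lt_or_ge i (-a) with h2 | h2
    · rw [if_neg (by omega), zero_add, hL i h2]
      rw [hL (i - 1) (by omega)] at g2 ⊢
      rcases lt_or_ge (i + 1) (-a) with h3 | h3
      · rw [hL (i + 1) h3] at g1 ⊢
        linarith
      · have e : i = -a - 1 := by omega
        have e2 : -a - 1 + 1 = -a := by ring
        rw [e] at g2 ⊢
        rw [hqa, e2, hN (-a) (by omega) le_rfl]
        push_cast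
        linarith
    · rcases lt_trichotomy i 0 with h3 | h3 | h3
      · -- negative
        rw [if_neg (by omega), zero_add, hN i h3.le h2]
        rw [hN (i + 1) (by omega) (by omega)] at g1
        push_cast at g1
        rcases lt_or_ge (i - 1) (-a) with h4 | h4
        · have e : i = -a := by omega
          subst e
          rw [hqa, hL (-a - 1) h4]
          push_cast at g1 ⊢
          rw [hN (-a + 1) (by omega) (by omega)]
          push_cast
          nlinarith
        · rw [hN (i - 1) (by omega) h4] at g2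
          push_cast at g2
          rw [hN (i + 1) (by omega) (by omega), hN (i - 1) (by omega) h4]
          push_cast
          linarith
      · -- zero
        subst h3
        rw [if_pos rfl, hP 0 le_rfl (by omega)]
        rw [hP (0 + 1) (by omega) (by omega)] at g1 ⊢
        rw [hN (0 - 1) (by omega) (by omega)] at g2 ⊢
        push_cast at g1 g2 ⊢
        linarith
      · -- positive
        rw [if_neg (by omega), zero_add, hP i h3.le h1]
        rw [hP (i - 1) (by omega) (by omega)] at g2 ⊢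
        push_cast at g2 ⊢
        rcases lt_or_ge b (i + 1) with h4 | h4
        · have e : i = b := by omega
          subst e
          rw [hqb, hR (i + 1) h4]
          nlinarith
        · rw [hP (i + 1) (by omega) h4] at g1 ⊢
          push_cast at g1 ⊢
          linarith

end prob

section trig

/-- One step of the multiplication by three. -/
lemma sin_three {x : ℝ} (hx : |Real.sin x| ≤ 1 / 4) :
    |Real.sin x| ≤ 4 / 11 * |Real.sin (x * 3)| := by
  have h3 : Real.sin (x * 3) = Real.sin x * (3 - 4 * Real.sin x ^ 2) := by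
    rw [mul_comm, Real.sin_three_mul]; ring
  rw [h3, abs_mul]
  have h1 : Real.sin x ^ 2 ≤ 1 / 16 := by
    rw [← sq_abs]
    have := abs_nonneg (Real.sin x)
    nlinarith
  have h2 : 11 / 4 ≤ |3 - 4 * Real.sin x ^ 2| := by
    rw [abs_of_nonneg (by linarith)]
    linarith
  have := abs_nonneg (Real.sin x)
  nlinarith

lemma sin_small {x : ℝ} (J : ℕ) (hJ : ∀ j < J, |Real.sin (x * 3 ^ j)| < 1 / 4 * (1 / 2) ^ j) :
    |Real.sin x| ≤ (4 / 11) ^ J * |Real.sin (x * 3 ^ J)| := by
  induction J with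
  | zero => simp
  | succ J ih =>
    have h1 := ih (fun j hj => hJ j (by omega))
    have h2 := hJ J (by omega)
    have h3 : |Real.sin (x * 3 ^ J)| ≤ 1 / 4 := by
      have : (1 / 2 : ℝ) ^ J ≤ 1 := pow_le_one₀ (by norm_num) (by norm_num)
      linarith
    have h4 := sin_three h3
    rw [mul_assoc, ← pow_succ] at h4
    calc |Real.sin x| ≤ (4 / 11) ^ J * |Real.sin (x * 3 ^ J)| := h1
      _ ≤ (4 / 11) ^ J * (4 / 11 * |Real.sin (x * 3 ^ (J + 1))|) := by gcongr
      _ = _ := by ring

/-- The first good scale. -/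
lemma exists_scale {x : ℝ} (hx : Real.sin x ≠ 0) :
    ∃ J : ℕ, 1 / 4 * (1 / 2) ^ J ≤ |Real.sin (x * 3 ^ J)| ∧
      |Real.sin x| ≤ 11 / 8 * (2 / 11) ^ J := by
  have hex : ∃ J : ℕ, 1 / 4 * (1 / 2) ^ J ≤ |Real.sin (x * 3 ^ J)| := by
    by_contra hcon
    push Not at hcon
    have h1 : ∀ J : ℕ, |Real.sin x| ≤ (4 / 11) ^ J * 1 := by
      intro J
      refine (sin_small J (fun j _ => hcon j)).trans ?_
      gcongr
      exact Real.abs_sin_le_one _
    have h2 : Filter.Tendsto (fun J : ℕ => (4 / 11 : ℝ) ^ J * 1) Filter.atTop (nhds 0) := by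
      simp only [mul_one]
      exact tendsto_pow_atTop_nhds_zero_of_lt_one (by norm_num) (by norm_num)
    have h3 := ge_of_tendsto' h2 h1
    exact hx (abs_nonpos_iff.mp h3)
  classical
  refine ⟨Nat.find hex, Nat.find_spec hex, ?_⟩
  have hmin : ∀ j < Nat.find hex, |Real.sin (x * 3 ^ j)| < 1 / 4 * (1 / 2) ^ j := fun j hj => by
    have := Nat.find_min hex hj
    push Not at this
    exact this
  rcases Nat.eq_zero_or_pos (Nat.find hex) with h0 | h0
  · rw [h0, pow_zero, mul_one]
    exact (Real.abs_sin_le_one x).trans (by norm_num)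
  · obtain ⟨m, hm⟩ : ∃ m, Nat.find hex = m + 1 := ⟨Nat.find hex - 1, by omega⟩
    have h1 := sin_small (x := x) m (fun j hj => hmin j (by omega))
    have h2 := hmin m (by omega)
    rw [hm]
    calc |Real.sin x| ≤ (4 / 11) ^ m * |Real.sin (x * 3 ^ m)| := h1
      _ ≤ (4 / 11) ^ m * (1 / 4 * (1 / 2) ^ m) := by gcongr
      _ = 1 / 4 * ((4 / 11) * (1 / 2)) ^ m := by rw [mul_pow]; ring
      _ = 11 / 8 * (2 / 11) ^ (m + 1) := by rw [pow_succ]; norm_num; ring

/-- The set of angles with small sine. -/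
lemma volume_small (ε : ℝ) (hε : 0 ≤ ε) :
    volume ({θ : ℝ | |Real.sin θ| ≤ ε} ∩ Set.Ioc 0 π) ≤ ENNReal.ofReal (π * ε) := by
  have hpi := Real.pi_pos
  have hsub : {θ : ℝ | |Real.sin θ| ≤ ε} ∩ Set.Ioc 0 π ⊆
      Set.Icc 0 (π / 2 * ε) ∪ Set.Icc (π - π / 2 * ε) π := by
    rintro θ ⟨h1, h2, h3⟩
    simp only [Set.mem_ofPred_eq] at h1
    rcases le_total θ (π / 2) with h4 | h4
    · left
      refine ⟨h2.le, ?_⟩
      have h5 := Real.mul_le_sin h2.le h4
      have h6 := (le_abs_self _).trans h1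
      have h7 : 2 / π * θ ≤ ε := h5.trans h6
      have h8 : θ = π / 2 * (2 / π * θ) := by field_simp
      rw [h8]
      gcongr
    · right
      refine ⟨?_, h3⟩
      have h5 := Real.mul_le_sin (x := π - θ) (by linarith) (by linarith)
      rw [Real.sin_pi_sub] at h5
      have h6 := (le_abs_self _).trans h1
      have h7 : 2 / π * (π - θ) ≤ ε := h5.trans h6
      have h8 : π - θ = π / 2 * (2 / π * (π - θ)) := by field_simp
      have h9 : π - θ ≤ π / 2 * ε := by
        rw [h8]
        gcongr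
      linarith
  calc volume ({θ : ℝ | |Real.sin θ| ≤ ε} ∩ Set.Ioc 0 π) ≤
        volume (Set.Icc 0 (π / 2 * ε) ∪ Set.Icc (π - π / 2 * ε) π) := measure_mono hsub
    _ ≤ volume (Set.Icc 0 (π / 2 * ε)) + volume (Set.Icc (π - π / 2 * ε) π) :=
        measure_union_le _ _
    _ = ENNReal.ofReal (π * ε) := by
        rw [Real.volume_Icc, Real.volume_Icc, sub_zero, sub_sub_cancel,
          ← ENNReal.ofReal_add (by positivity) (by positivity)]
        congr 1
        ring

end trig

section environment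

/-- The gap function. -/
noncomputable def g (z : ℤ_[2]) : ℕ := 3 ^ (z.valuation / 2)

lemma one_le_g (z : ℤ_[2]) : 1 ≤ g z := Nat.one_le_pow _ _ (by norm_num)

lemma mem_W_iff {z : ℤ_[2]} (hz : z ≠ 0) (n : ℕ) : z ∈ W n ↔ n ≤ z.valuation := by
  rw [← PadicInt.mem_span_pow_iff_le_valuation z hz n]
  unfold W
  rw [Set.mem_ofPred_eq, ← RingHom.mem_ker, PadicInt.ker_toZModPow]

lemma g_eq {z : ℤ_[2]} {J : ℕ} (h1 : z ∈ W (2 * J)) (h2 : z ∉ W (2 * J + 2)) : g z = 3 ^ J := by
  have hz : z ≠ 0 := by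
    rintro rfl
    apply h2
    unfold W
    simp
  rw [mem_W_iff hz] at h1 h2
  unfold g
  congr 1
  omega

lemma measurable_valuation : Measurable (fun z : ℤ_[2] => z.valuation) := by
  apply measurable_of_Ici
  intro n
  rcases Nat.eq_zero_or_pos n with rfl | hn
  · have : (fun z : ℤ_[2] => z.valuation) ⁻¹' Set.Ici 0 = Set.univ := by ext; simp
    rw [this]; exact MeasurableSet.univ
  · have : (fun z : ℤ_[2] => z.valuation) ⁻¹' Set.Ici n = W n \ {0} := by
      ext z
      simp only [Set.mem_preimage, Set.mem_Ici, Set.mem_sdiff, Set.mem_singleton_iff]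
      by_cases hz : z = 0
      · subst hz
        simp only [PadicInt.valuation_zero, not_true_eq_false, and_false, iff_false]
        omega
      · rw [mem_W_iff hz]
        simp [hz]
    rw [this]
    exact (measurableSet_W n).diff (measurableSet_singleton 0)

lemma measurable_g : Measurable g :=
  (measurable_of_countable (fun n : ℕ => 3 ^ (n / 2))).comp measurable_valuation

lemma lintegral_g : ∫⁻ z, (g z : ℝ≥0∞) ∂nu ≠ ∞ := by
  have h1 : ∀ᵐ z ∂nu, (g z : ℝ≥0∞) ≤ ∑' J : ℕ, (W (2 * J)).indicator (fun _ => (3 : ℝ≥0∞) ^ J) z := by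
    refine Filter.Eventually.of_forall fun z => ?_
    refine le_trans ?_ (ENNReal.le_tsum (z.valuation / 2))
    rw [Set.indicator_of_mem]
    · unfold g
      push_cast
      exact le_rfl
    · by_cases hz : z = 0
      · subst hz; simp [W]
      · rw [mem_W_iff hz]; omega
  refine ne_top_of_le_ne_top ?_ (lintegral_mono_ae h1)
  rw [lintegral_tsum (fun J => (measurable_const.indicator (measurableSet_W _)).aemeasurable)]
  have h2 : ∀ J : ℕ, ∫⁻ z, (W (2 * J)).indicator (fun _ => (3 : ℝ≥0∞) ^ J) z ∂nu =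
      ENNReal.ofReal ((3 / 4) ^ J) := by
    intro J
    rw [lintegral_indicator (measurableSet_W _), lintegral_const, Measure.restrict_apply_univ, nu_W]
    rw [pow_mul, ← mul_pow, ENNReal.ofReal_pow (by norm_num)]
    congr 1
    rw [show (3 / 4 : ℝ) = 3 * (2⁻¹ ^ 2) by norm_num, ENNReal.ofReal_mul (by norm_num),
      ENNReal.ofReal_pow (by norm_num), ENNReal.ofReal_inv_of_pos (by norm_num)]
    simp
  simp only [h2]
  rw [← ENNReal.ofReal_tsum_of_nonneg (fun n => by positivity)
    (summable_geometric_of_lt_one (by norm_num) (by norm_num))]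
  exact ENNReal.ofReal_ne_top

lemma W_add {n : ℕ} {a b : ℤ_[2]} (ha : a ∈ W n) (hb : b ∈ W n) : a + b ∈ W n := by
  simp only [W, Set.mem_ofPred_eq] at *
  rw [map_add, ha, hb, add_zero]

lemma W_sub {n : ℕ} {a b : ℤ_[2]} (ha : a ∈ W n) (hb : b ∈ W n) : a - b ∈ W n := by
  simp only [W, Set.mem_ofPred_eq] at *
  rw [map_sub, ha, hb, sub_zero]

lemma W_mono {m n : ℕ} (h : n ≤ m) : W m ⊆ W n := by
  rw [W_eq, W_eq]
  intro z hz
  simp only [Set.mem_ofPred_eq] at *
  refine hz.trans ?_
  apply zpow_le_zpow_right₀ (by norm_num)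
  omega

lemma two_pow_mul_mem (n : ℕ) (t : ℤ_[2]) : 2 ^ n * t ∈ W n := by
  simp only [W, Set.mem_ofPred_eq]
  have : (2 : ℤ_[2]) ^ n = ((2 ^ n : ℕ) : ℤ_[2]) := by push_cast; rfl
  rw [this, map_mul, map_natCast, ZMod.natCast_self, zero_mul]

/-- On both sides of the origin there is a gap of size `3^J` at distance at most `7 * 4^J`. -/
lemma exists_gaps (z : ℤ_[2]) (J : ℕ) : ∃ a b : ℤ, 1 ≤ a ∧ 1 ≤ b ∧ (a : ℝ) ≤ 7 * 4 ^ J ∧
    (b : ℝ) ≤ 7 * 4 ^ J ∧ hseq g z b = 3 ^ J ∧ hseq g z (-a - 1) = 3 ^ J := by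
  set m := 2 * J + 2 with hm
  set c : ℕ := (-(PadicInt.toZModPow m z)).val with hc
  have hpow : (2 : ℕ) ^ m = 4 * 4 ^ J := by
    rw [hm, pow_add, pow_mul]; norm_num; ring
  have hpow' : (2 : ℤ_[2]) ^ m = 4 * 4 ^ J := by exact_mod_cast congrArg (Nat.cast : ℕ → ℤ_[2]) hpow
  have hclt : c < 4 * 4 ^ J := by
    rw [← hpow]; exact ZMod.val_lt _
  have hcz : z + (c : ℤ_[2]) ∈ W m := by
    show PadicInt.toZModPow m (z + (c : ℤ_[2])) = 0
    rw [map_add, hc, toZModPow_val]; ring
  have h4 : (4 : ℤ_[2]) ^ J = 2 ^ (2 * J) * 1 := by rw [pow_mul]; norm_num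
  -- all shifts by `4^J` modulo `4^(J+1)`
  have key : ∀ t : ℤ, hseq g z (c + 4 ^ J + 4 * 4 ^ J * t) = 3 ^ J := by
    intro t
    unfold hseq
    have e : z + (((c : ℤ) + 4 ^ J + 4 * 4 ^ J * t : ℤ) : ℤ_[2]) =
        ((z + (c : ℤ_[2])) + 2 ^ m * (t : ℤ_[2])) + 4 ^ J := by
      rw [hpow']; push_cast; ring
    rw [e]
    have hA : (z + (c : ℤ_[2])) + 2 ^ m * (t : ℤ_[2]) ∈ W m := W_add hcz (two_pow_mul_mem _ _)
    apply g_eq
    · apply W_add (W_mono (by omega) hA)
      rw [h4]
      exact two_pow_mul_mem _ _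
    · intro hcon
      have h5 := W_sub hcon hA
      rw [add_sub_cancel_left] at h5
      have h6 : PadicInt.toZModPow m (((4 ^ J : ℕ)) : ℤ_[2]) = 0 := by push_cast; exact h5
      rw [map_natCast, ZMod.natCast_eq_zero_iff, hpow] at h6
      have h7 := Nat.le_of_dvd (by positivity) h6
      have : 0 < 4 ^ J := by positivity
      omega
  have hpos : (0 : ℤ) < 4 ^ J := by positivity
  have hpos1 : (1 : ℤ) ≤ 4 ^ J := hpos
  have hclt' : (c : ℤ) < 4 * 4 ^ J := by exact_mod_cast hclt
  refine ⟨7 * 4 ^ J - c - 1, c + 4 ^ J, by omega, by omega, ?_, ?_, ?_, ?_⟩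
  · have : (7 * 4 ^ J - c - 1 : ℤ) ≤ 7 * 4 ^ J := by omega
    exact_mod_cast this
  · have : (c + 4 ^ J : ℤ) ≤ 7 * 4 ^ J := by omega
    exact_mod_cast this
  · have := key 0
    rwa [mul_zero, add_zero] at this
  · have := key (-2)
    rw [show (c : ℤ) + 4 ^ J + 4 * 4 ^ J * (-2) = -(7 * 4 ^ J - c - 1) - 1 by ring] at this
    exact this

end environment

section final

lemma tsum_u_le (z : ℤ_[2]) {θ : ℝ} {J : ℕ} (hθ : 1 / 4 * (1 / 2) ^ J ≤ |Real.sin (θ * 3 ^ J)|) :
    ∑' n, ENNReal.ofReal |u (hseq g z) θ n 0| ≤ ENNReal.ofReal (23 * 4 ^ J) := by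
  obtain ⟨a, b, ha, hb, haM, hbM, hgb, hga⟩ := exists_gaps z J
  set q := |Real.cos (θ * 3 ^ J)| with hq
  have hq0 : 0 ≤ q := abs_nonneg _
  have hq1 : q ≤ 1 := Real.abs_cos_le_one _
  have hq2 : 1 - q ^ 2 = Real.sin (θ * 3 ^ J) ^ 2 := by
    rw [hq, sq_abs, Real.sin_sq]
  have hs : 1 / 16 * (1 / 4) ^ J ≤ 1 - q ^ 2 := by
    rw [hq2, ← sq_abs]
    calc (1 / 16 : ℝ) * (1 / 4) ^ J = (1 / 4 * (1 / 2) ^ J) ^ 2 := by
          rw [mul_pow, ← pow_mul, mul_comm J 2, pow_mul]; norm_num
      _ ≤ _ := pow_le_pow_left₀ (by positivity) hθ 2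
  have hK : 1 ≤ (1 - q ^ 2) * (16 * 4 ^ J) := by
    calc (1 : ℝ) = (1 / 16 * (1 / 4) ^ J) * (16 * 4 ^ J) := by
          rw [mul_mul_mul_comm, ← mul_pow]; norm_num
      _ ≤ _ := mul_le_mul_of_nonneg_right hs (by positivity)
  have hqb : |Real.cos (θ * hseq g z b)| = q := by rw [hgb]; push_cast; rfl
  have hqa : |Real.cos (θ * hseq g z (-a - 1))| = q := by rw [hga]; push_cast; rfl
  obtain ⟨h0, h1⟩ := Hf_super (hseq g z) (θ := θ) (M := 7 * 4 ^ J) (K := 16 * 4 ^ J) ha hb haM hbM
    hq0 hK (by positivity) hqb hqa hq1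
  rw [ENNReal.tsum_eq_iSup_nat]
  apply iSup_le
  intro N
  rw [← ENNReal.ofReal_sum_of_nonneg (fun n _ => abs_nonneg _)]
  apply ENNReal.ofReal_le_ofReal
  have h2 := sum_abs_u_le (hseq g z) h0 h1 N 0
  refine h2.trans ?_
  unfold Hf
  rw [if_neg (by omega), if_neg (by omega)]
  simp only [Int.cast_zero, abs_zero, sub_zero]
  linarith

lemma green_ne_top (z : ℤ_[2]) :
    ∑' k, Chain.pw (Noise.P (stepM (hseq g z)) (PMF.uniformOfFintype (Fin 4))) k (0, 0) (0, 0) ≠
      ∞ := by
  have hpi := Real.pi_pos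
  simp only [pw_eq]
  have h1 : ∀ k, ENNReal.ofReal (p (hseq g z) k (0, 0)) ≤ ENNReal.ofReal π⁻¹ *
      ∫⁻ θ in Set.Ioc 0 π, ENNReal.ofReal |u (hseq g z) θ k 0| := by
    intro k
    have hcont := continuous_u (hseq g z) k 0
    rw [p_eq, ENNReal.ofReal_mul (by positivity)]
    gcongr
    rw [← ofReal_integral_eq_lintegral_ofReal]
    · apply ENNReal.ofReal_le_ofReal
      rw [← intervalIntegral.integral_of_le hpi.le]
      apply intervalIntegral.integral_mono_on hpi.le
      · apply Continuous.intervalIntegrable; fun_prop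
      · apply Continuous.intervalIntegrable; fun_prop
      · intro θ _
        simp only [Int.cast_zero, mul_zero, Real.cos_zero, one_mul]
        exact le_abs_self _
    · exact (hcont.abs.integrableOn_Icc (a := 0) (b := π)).mono_set Set.Ioc_subset_Icc_self
    · exact Filter.Eventually.of_forall fun θ => abs_nonneg _
  refine ne_top_of_le_ne_top ?_ (ENNReal.tsum_le_tsum h1)
  rw [ENNReal.tsum_mul_left]
  apply ENNReal.mul_ne_top ENNReal.ofReal_ne_top
  rw [← lintegral_tsum (fun k => by
    have hcont := continuous_u (hseq g z) k 0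
    exact (hcont.abs.measurable.ennreal_ofReal).aemeasurable)]
  -- pointwise bound
  have h2 : ∀ᵐ θ ∂(volume.restrict (Set.Ioc 0 π)),
      ∑' k, ENNReal.ofReal |u (hseq g z) θ k 0| ≤
      ∑' J : ℕ, {θ : ℝ | |Real.sin θ| ≤ 11 / 8 * (2 / 11) ^ J}.indicator
        (fun _ => ENNReal.ofReal (23 * 4 ^ J)) θ := by
    have hne : ∀ᵐ θ ∂(volume.restrict (Set.Ioc 0 π)), θ ≠ π := by
      apply ae_restrict_of_ae
      exact Measure.ae_ne volume π
    filter_upwards [hne, ae_restrict_mem measurableSet_Ioc] with θ h3 h4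
    have h5 : Real.sin θ ≠ 0 :=
      (Real.sin_pos_of_pos_of_lt_pi h4.1 (lt_of_le_of_ne h4.2 h3)).ne'
    obtain ⟨J, hJ1, hJ2⟩ := exists_scale h5
    refine (tsum_u_le z hJ1).trans ?_
    refine le_trans ?_ (ENNReal.le_tsum J)
    rw [Set.indicator_of_mem (by exact hJ2)]
  refine ne_top_of_le_ne_top ?_ (lintegral_mono_ae h2)
  have hms : ∀ J : ℕ, MeasurableSet {θ : ℝ | |Real.sin θ| ≤ 11 / 8 * (2 / 11) ^ J} := fun J =>
    (isClosed_le (by fun_prop) continuous_const).measurableSet
  rw [lintegral_tsum (fun J => (measurable_const.indicator (hms J)).aemeasurable)]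
  have h6 : ∀ J : ℕ, ∫⁻ θ in Set.Ioc 0 π, {θ : ℝ | |Real.sin θ| ≤ 11 / 8 * (2 / 11) ^ J}.indicator
        (fun _ => ENNReal.ofReal (23 * 4 ^ J)) θ ≤
      ENNReal.ofReal (23 * 11 / 8 * π * (8 / 11) ^ J) := by
    intro J
    rw [lintegral_indicator (hms J), lintegral_const, Measure.restrict_apply_univ,
      Measure.restrict_apply (hms J)]
    calc ENNReal.ofReal (23 * 4 ^ J) *
          volume ({θ : ℝ | |Real.sin θ| ≤ 11 / 8 * (2 / 11) ^ J} ∩ Set.Ioc 0 π) ≤
          ENNReal.ofReal (23 * 4 ^ J) * ENNReal.ofReal (π * (11 / 8 * (2 / 11) ^ J)) := by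
          gcongr
          exact volume_small _ (by positivity)
      _ = _ := by
          rw [← ENNReal.ofReal_mul (by positivity)]
          congr 1
          rw [show (8 / 11 : ℝ) = 4 * (2 / 11) by norm_num, mul_pow]
          ring
  refine ne_top_of_le_ne_top ?_ (ENNReal.tsum_le_tsum h6)
  rw [← ENNReal.ofReal_tsum_of_nonneg (fun n => by positivity)
    ((summable_geometric_of_lt_one (by norm_num) (by norm_num)).mul_left _)]
  exact ENNReal.ofReal_ne_top

/-- **Main result.** There is a two-dimensional discrete point process on which the random walk is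
almost surely transient. -/
theorem result : ∃ Q : Measure Om, IsPointProcess Q ∧ IsTransient Q := by
  refine ⟨Q g, isPointProcess measurable_g one_le_g lintegral_g, ?_⟩
  apply ae_annealed measurable_g one_le_g lintegral_g measurableSet_finite
  refine Filter.Eventually.of_forall fun z => ?_
  exact transient_of_green (fun i => one_le_g _) (green_ne_top z)

end final

end Pool.Agent.Results.MP_4a7829_pr.TransientPlanar
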